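import Pool.Agent.Helper47.RF.CoreGoals

/-!
# Project RF: packet C8, rules for smooth families
-/

namespace Pool.Agent.Helper93.RF.C8

open Pool.Agent.Helper47.RF

/-- Closure of the smooth families under the operations. -/
inductive Cl (I : Set ℝ) : (ℝ → HH → ℝ) → Prop
  | fam (f : ℝ → HH → ℝ) : SmFam I f → Cl I f
  | const (c : ℝ → ℝ) : ContinuousOn c I → Cl I (fun t _ => c t)
  | add (f h : ℝ → HH → ℝ) : Cl I f → Cl I h → Cl I (fun t x => f t x + h t x)
  | mul (f h : ℝ → HH → ℝ) : Cl I f → Cl I h → Cl I (fun t x => f t x * h t x)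
  | comp (f : ℝ → HH → ℝ) (F : ℝ → ℝ) (U : Set ℝ) : IsOpen U → ContDiffOn ℝ oo F U → Cl I f →
      (∀ t ∈ I, ∀ x, x ≠ 0 → f t x ∈ U) → Cl I (fun t x => F (f t x))
  | congr (f h : ℝ → HH → ℝ) : Cl I f → (∀ t ∈ I, h t = f t) → Cl I h

theorem E_zero (i : Fin 3) (f : HH → ℝ) : E i f 0 = 0 := by
  simp [E]

theorem Ew_append (w : List (Fin 3)) (i : Fin 3) (f : HH → ℝ) : Ew w (E i f) = Ew (w ++ [i]) f := by
  induction w with
  | nil => rfl
  | cons j w ih =>
    show E j (Ew w (E i f)) = E j (Ew (w ++ [i]) f)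
    rw [ih]

/-- The derivative of a smooth family is a smooth family. -/
theorem fam_E (h1 : Goal_C1) {I : Set ℝ} {f : ℝ → HH → ℝ} (hf : SmFam I f) (i : Fin 3) :
    SmFam I (fun t => E i (f t)) := by
  obtain ⟨_, _, _, _, _, _, _, hE, _⟩ := h1
  refine ⟨fun t ht => hE _ i (hf.sm t ht), fun w => ?_⟩
  have := hf.cont (w ++ [i])
  simpa only [Ew_append] using this

theorem cl_sm (h1 : Goal_C1) {I : Set ℝ} {f : ℝ → HH → ℝ} (hf : Cl I f) : ∀ t ∈ I, Sm (f t) := by
  obtain ⟨hc, ha, _, hm, _, _, hF, _, _⟩ := h1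
  induction hf with
  | fam f h => exact h.sm
  | const c h => exact fun t _ => hc (c t)
  | add f h _ _ ihf ihh => exact fun t ht => ha _ _ (ihf t ht) (ihh t ht)
  | mul f h _ _ ihf ihh => exact fun t ht => hm _ _ (ihf t ht) (ihh t ht)
  | comp f F U hU hFU _ hr ih => exact fun t ht => hF _ F U hU hFU (ih t ht) (hr t ht)
  | congr f h _ he ih => exact fun t ht => by rw [he t ht]; exact ih t ht

theorem cl_cont {I : Set ℝ} {f : ℝ → HH → ℝ} (hf : Cl I f) :
    ContinuousOn (fun p : ℝ × HH => f p.1 p.2) (I ×ˢ {0}ᶜ) := by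
  induction hf with
  | fam f h => exact h.cont []
  | const c h => exact h.comp continuousOn_fst (fun p hp => hp.1)
  | add f h _ _ ihf ihh => exact ihf.add ihh
  | mul f h _ _ ihf ihh => exact ihf.mul ihh
  | comp f F U hU hFU _ hr ih => exact hFU.continuousOn.comp ih (fun p hp => hr p.1 hp.1 p.2 hp.2)
  | congr f h _ he ih => exact ih.congr (fun p hp => by rw [he p.1 hp.1])

theorem cl_E (h1 : Goal_C1) (h2 : Goal_C2) {I : Set ℝ} {f : ℝ → HH → ℝ} (hf : Cl I f) (i : Fin 3) :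
    Cl I (fun t => E i (f t)) := by
  obtain ⟨dc, da, _, _, dm, _, _, dF⟩ := h2
  induction hf with
  | fam f h => exact Cl.fam _ (fam_E h1 h i)
  | const c h =>
    refine Cl.congr _ _ (Cl.const (fun _ => 0) continuousOn_const) (fun t _ => ?_)
    funext x
    exact dc i (c t) x
  | add f h hf hh ihf ihh =>
    refine Cl.congr _ _ (Cl.add _ _ ihf ihh) (fun t ht => ?_)
    funext x
    exact da i _ _ x (cl_sm h1 hf t ht) (cl_sm h1 hh t ht)
  | mul f h hf hh ihf ihh =>
    refine Cl.congr _ _ (Cl.add _ _ (Cl.mul _ _ ihf hh) (Cl.mul _ _ hf ihh)) (fun t ht => ?_)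
    funext x
    exact dm i _ _ x (cl_sm h1 hf t ht) (cl_sm h1 hh t ht)
  | comp f F U hU hFU hf hr ih =>
    have hF' : ContDiffOn ℝ oo (deriv F) U := hFU.deriv_of_isOpen hU (by simp [oo])
    refine Cl.congr _ _ (Cl.mul _ _ (Cl.comp f (deriv F) U hU hF' hf hr) ih) (fun t ht => ?_)
    funext x
    by_cases hx : x = 0
    · subst hx
      rw [E_zero, E_zero, mul_zero]
    · have hd : DifferentiableAt ℝ F (f t x) :=
        (hFU.contDiffAt (hU.mem_nhds (hr t ht x hx))).differentiableAt (by simp [oo])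
      exact dF i _ F _ x (cl_sm h1 hf t ht) hx hd.hasDerivAt
  | congr f h hf he ih =>
    exact Cl.congr _ _ ih (fun t ht => by rw [he t ht])

theorem cl_fam (h1 : Goal_C1) (h2 : Goal_C2) {I : Set ℝ} {f : ℝ → HH → ℝ} (hf : Cl I f) :
    SmFam I f := by
  have hw : ∀ w, Cl I (fun t => Ew w (f t)) := by
    intro w
    induction w with
    | nil => exact hf
    | cons i w ih => exact cl_E h1 h2 ih i
  exact ⟨cl_sm h1 hf, fun w => cl_cont (hw w)⟩

theorem fam_congr {I : Set ℝ} {f h : ℝ → HH → ℝ} (hf : SmFam I f) (he : ∀ t ∈ I, h t = f t) :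
    SmFam I h :=
  ⟨fun t ht => by rw [he t ht]; exact hf.sm t ht,
    fun w => (hf.cont w).congr (fun p hp => by rw [he p.1 hp.1])⟩

theorem cl_neg {I : Set ℝ} {f : ℝ → HH → ℝ} (hf : Cl I f) : Cl I (fun t x => - f t x) := by
  refine Cl.congr _ _ (Cl.mul _ _ (Cl.const (fun _ => -1) continuousOn_const) hf) (fun t _ => ?_)
  funext x
  ring

/-- Goal C8. -/
theorem goal_C8 (hC1 : Goal_C1) (hC2 : Goal_C2) : Goal_C8 := by
  intro I
  refine ⟨fun c hc => cl_fam hC1 hC2 (Cl.const c hc),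
    fun f h hf hh => cl_fam hC1 hC2 (Cl.add _ _ (Cl.fam _ hf) (Cl.fam _ hh)),
    fun f h hf hh => ?_,
    fun f h hf hh => cl_fam hC1 hC2 (Cl.mul _ _ (Cl.fam _ hf) (Cl.fam _ hh)),
    fun f hf => cl_fam hC1 hC2 (cl_neg (Cl.fam _ hf)),
    fun f i hf => fam_E hC1 hf i,
    fun f F U hU hF hf hr => cl_fam hC1 hC2 (Cl.comp f F U hU hF (Cl.fam _ hf) hr),
    fun ι s f hf => ?_⟩
  · refine fam_congr (cl_fam hC1 hC2 (Cl.add _ _ (Cl.fam _ hf) (cl_neg (Cl.fam _ hh)))) (fun t _ => ?_)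
    funext x
    ring
  · classical
    apply cl_fam hC1 hC2
    induction s using Finset.induction_on with
    | empty =>
      refine Cl.congr _ _ (Cl.const (fun _ => 0) continuousOn_const) (fun t _ => ?_)
      funext x
      simp
    | insert a s ha ih =>
      refine Cl.congr _ _ (Cl.add _ _ (Cl.fam _ (hf a (Finset.mem_insert_self a s)))
        (ih (fun b hb => hf b (Finset.mem_insert_of_mem hb)))) (fun t _ => ?_)
      funext x
      rw [Finset.sum_insert ha]

end Pool.Agent.Helper93.RF.C8
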