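import Pool.Agent.Helper73.RF.GoalsD
import Mathlib.Analysis.Calculus.FDeriv.Partial

/-!
Project RF, packet JSM: smooth families with all time derivatives are jointly smooth.
-/

set_option autoImplicit false

open Finset Pool.Agent.Helper47.RF

namespace Pool.Agent.Helper93.RF.Jsm

open Pool.Agent.Helper73.RF

/-- Euler: the radial derivative vanishes. -/
theorem euler {f : HH → ℝ} (h : Sm f) {x : HH} (hx : x ≠ 0) : fderiv ℝ f x x = 0 := by
  have hd : DifferentiableAt ℝ f x :=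
    (h.cd.contDiffAt (isOpen_compl_singleton.mem_nhds hx)).differentiableAt (by simp)
  have h1 : HasDerivAt (fun t : ℝ => (1 + t) • x) x 0 := by
    have : HasDerivAt (fun t : ℝ => (1 + t)) 1 0 := by
      simpa using (hasDerivAt_id (0:ℝ)).const_add 1
    simpa using this.smul_const x
  have h2 : HasFDerivAt f (fderiv ℝ f x) ((1 + (0:ℝ)) • x) := by
    simpa using hd.hasFDerivAt
  have h3 : HasDerivAt (fun t : ℝ => f ((1 + t) • x)) (fderiv ℝ f x x) 0 :=
    h2.comp_hasDerivAt 0 h1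
  have h4 : (fun t : ℝ => f ((1 + t) • x)) =ᶠ[nhds 0] fun _ => f x := by
    have : ∀ᶠ t : ℝ in nhds 0, 0 < 1 + t := by
      have := (isOpen_lt (continuous_const (y := (0:ℝ))) (continuous_const.add continuous_id)
        : IsOpen {t : ℝ | 0 < 1 + t}).mem_nhds (x := (0:ℝ)) (by simp)
      exact this
    filter_upwards [this] with t ht
    exact h.hom _ x ht
  have h5 : HasDerivAt (fun t : ℝ => f ((1 + t) • x)) 0 0 :=
    (hasDerivAt_const (0:ℝ) (f x)).congr_of_eventuallyEq h4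
  exact h3.unique h5

/-- coordinates of the imaginary part as continuous linear maps -/
noncomputable def cL (i : Fin 3) : HH →L[ℝ] ℝ :=
  LinearMap.toContinuousLinearMap
    { toFun := fun q => im3 q i
      map_add' := fun p q => by fin_cases i <;> rfl
      map_smul' := fun c q => by fin_cases i <;> rfl }

theorem cL_apply (i : Fin 3) (q : HH) : cL i q = im3 q i := rfl

theorem dec (q : HH) : q = q.re • (1 : HH) + ∑ i, im3 q i • qe i := by
  have h0 : (1 : HH).re = 1 := rfl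
  have h1 : (1 : HH).imI = 0 := rfl
  have h2 : (1 : HH).imJ = 0 := rfl
  have h3 : (1 : HH).imK = 0 := rfl
  simp only [Fin.sum_univ_three, im3, qe]
  ext <;> simp [h0, h1, h2, h3]

/-- the covectors dual to the frame -/
noncomputable def Ac (i : Fin 3) (x : HH) : HH →L[ℝ] ℝ :=
  (cL i).comp (ContinuousLinearMap.mul ℝ HH x⁻¹)

theorem fderiv_eq {f : HH → ℝ} (h : Sm f) {x : HH} (hx : x ≠ 0) :
    fderiv ℝ f x = ∑ i, E i f x • Ac i x := by
  ext v
  have h1 : v = x * (x⁻¹ * v) := by rw [← mul_assoc, mul_inv_cancel₀ hx, one_mul]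
  have h2 : x * (x⁻¹ * v) = (x⁻¹ * v).re • x + ∑ i, im3 (x⁻¹ * v) i • (x * qe i) := by
    conv_lhs => rw [dec (x⁻¹ * v)]
    rw [mul_add, Finset.mul_sum, mul_smul_comm, mul_one]
    simp only [mul_smul_comm]
  conv_lhs => rw [h1, h2]
  rw [map_add, map_smul, euler h hx, smul_zero, zero_add, map_sum]
  rw [_root_.sum_apply]
  refine Finset.sum_congr rfl fun i _ => ?_
  rw [map_smul]
  show im3 (x⁻¹ * v) i * E i f x = E i f x * im3 (x⁻¹ * v) i
  ring

theorem Ac_cd (i : Fin 3) : ContDiffOn ℝ inf (Ac i) {0}ᶜ := by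
  have h1 : ContDiffOn ℝ inf (fun x : HH => x⁻¹) {0}ᶜ := by
    intro x hx
    have hx' : x ≠ 0 := hx
    have h2 := contDiffAt_ringInverse (n := inf) ℝ (Units.mk0 x hx')
    rw [Ring.inverse_eq_inv'] at h2
    exact h2.contDiffWithinAt
  have h3 : ContDiffOn ℝ inf (fun x : HH => ContinuousLinearMap.mul ℝ HH x⁻¹) {0}ᶜ :=
    (ContinuousLinearMap.mul ℝ HH).contDiff.comp_contDiffOn h1
  exact contDiffOn_const.clm_comp h3

/-- the open set -/
def OO (T : ℝ) : Set (HH × ℝ) := {p | p.1 ≠ 0 ∧ 0 < p.2 ∧ p.2 < T}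

theorem isOpen_OO (T : ℝ) : IsOpen (OO T) := by
  have h1 : IsOpen {p : HH × ℝ | p.1 ≠ 0} := isOpen_ne_fun continuous_fst continuous_const
  have h2 : IsOpen {p : HH × ℝ | 0 < p.2} := isOpen_lt continuous_const continuous_snd
  have h3 : IsOpen {p : HH × ℝ | p.2 < T} := isOpen_lt continuous_snd continuous_const
  have : OO T = {p : HH × ℝ | p.1 ≠ 0} ∩ ({p : HH × ℝ | 0 < p.2} ∩ {p : HH × ℝ | p.2 < T}) := by
    ext p
    simp [OO]
  rw [this]
  exact h1.inter (h2.inter h3)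

section
variable {T : ℝ} {I : Set ℝ} {F : ℕ → ℝ → HH → ℝ}

theorem G_cont (hI : Set.Ioo 0 T ⊆ I) (hF : ∀ k, SmFam1 I (F k) (F (k + 1))) (k : ℕ)
    (w : List (Fin 3)) : ContinuousOn (fun p : HH × ℝ => Ew w (F k p.2) p.1) (OO T) := by
  have h1 := (hF k).fam.cont w
  have h2 : ContinuousOn (fun p : HH × ℝ => (p.2, p.1)) (OO T) :=
    (continuous_snd.prodMk continuous_fst).continuousOn
  exact h1.comp h2 (fun p hp => ⟨hI ⟨hp.2.1, hp.2.2⟩, hp.1⟩)

theorem Sm_E {f : HH → ℝ} (h : Sm f) (i : Fin 3) : Sm (E i f) := by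
  refine ⟨?_, ?_⟩
  · have h1 : ContDiffOn ℝ inf (fderiv ℝ f) {0}ᶜ :=
      h.cd.fderiv_of_isOpen isOpen_compl_singleton (by simp)
    have h2 : ContDiff ℝ inf (fun x : HH => x * qe i) := (mulR (qe i)).contDiff
    exact h1.clm_apply h2.contDiffOn
  · intro r x hr
    have h1 : (fun y => f (r • y)) = f := by
      funext y
      exact h.hom r y hr
    have h2 : fderiv ℝ f x = r • fderiv ℝ f (r • x) := by
      conv_lhs => rw [← h1]
      exact fderiv_comp_smul (𝕜 := ℝ) (f := f) (x := x) r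
    unfold E
    rw [h2]
    simp

theorem Sm_Ew {f : HH → ℝ} (h : Sm f) (w : List (Fin 3)) : Sm (Ew w f) := by
  induction w with
  | nil => exact h
  | cons i w ih => exact Sm_E ih i

theorem G_deriv (hI : Set.Ioo 0 T ⊆ I) (hF : ∀ k, SmFam1 I (F k) (F (k + 1))) (k : ℕ)
    (w : List (Fin 3)) {p : HH × ℝ} (hp : p ∈ OO T) :
    HasFDerivAt (fun p : HH × ℝ => Ew w (F k p.2) p.1)
      (∑ i, Ew (i :: w) (F k p.2) p.1 • (Ac i p.1).comp (ContinuousLinearMap.fst ℝ HH ℝ)
        + Ew w (F (k + 1) p.2) p.1 • ContinuousLinearMap.snd ℝ HH ℝ) p := by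
  have hO := (isOpen_OO T).mem_nhds hp
  have hcA : ∀ i, ContinuousAt (fun p : HH × ℝ => Ac i p.1) p := by
    intro i
    have h1 : ContinuousAt (Ac i) p.1 :=
      (Ac_cd i).continuousOn.continuousAt (isOpen_compl_singleton.mem_nhds hp.1)
    exact ContinuousAt.comp (f := Prod.fst) h1 continuousAt_fst
  have key := hasStrictFDerivAt_uncurry_coprod (𝕜 := ℝ) (u := p)
    (f := fun (x : HH) (t : ℝ) => Ew w (F k t) x)
    (f₁ := fun (x : HH) (t : ℝ) => ∑ i, Ew (i :: w) (F k t) x • Ac i x)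
    (f₂ := fun (x : HH) (t : ℝ) => Ew w (F (k + 1) t) x • ContinuousLinearMap.id ℝ ℝ)
    ?_ ?_ ?_ ?_
  · have h1 := key.hasFDerivAt
    refine h1.congr_fderiv ?_
    ext v
    · simp [Function.HasUncurry.uncurry]
    · simp [Function.HasUncurry.uncurry]
  · filter_upwards [hO] with v hv
    have hs : Sm (Ew w (F k v.2)) := Sm_Ew ((hF k).fam.sm _ (hI ⟨hv.2.1, hv.2.2⟩)) w
    have hd : DifferentiableAt ℝ (Ew w (F k v.2)) v.1 :=
      (hs.cd.contDiffAt (isOpen_compl_singleton.mem_nhds hv.1)).differentiableAt (by simp)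
    have h2 := hd.hasFDerivAt
    rw [fderiv_eq hs hv.1] at h2
    exact h2
  · filter_upwards [hO] with v hv
    have h1 := (hF k).der w v.1 hv.1 v.2 (hI ⟨hv.2.1, hv.2.2⟩)
    have h2 : I ∈ nhds v.2 := Filter.mem_of_superset (Ioo_mem_nhds hv.2.1 hv.2.2) hI
    have h3 := (h1.hasDerivAt h2).hasFDerivAt
    refine h3.congr_fderiv ?_
    ext
    simp [Function.HasUncurry.uncurry]
  · have : ContinuousAt (fun p : HH × ℝ => ∑ i, Ew (i :: w) (F k p.2) p.1 • Ac i p.1) p := by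
      refine tendsto_finsetSum _ fun i _ => ?_
      exact ((G_cont hI hF k (i :: w)).continuousAt hO).smul (hcA i)
    exact this
  · have : ContinuousAt (fun p : HH × ℝ => Ew w (F (k + 1) p.2) p.1 •
        ContinuousLinearMap.id ℝ ℝ) p :=
      ((G_cont hI hF (k + 1) w).continuousAt hO).smul continuousAt_const
    exact this

theorem G_cd (hI : Set.Ioo 0 T ⊆ I) (hF : ∀ k, SmFam1 I (F k) (F (k + 1))) (n : ℕ) :
    ∀ (k : ℕ) (w : List (Fin 3)),
      ContDiffOn ℝ n (fun p : HH × ℝ => Ew w (F k p.2) p.1) (OO T) := by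
  induction n with
  | zero =>
    intro k w
    exact contDiffOn_zero.mpr (G_cont hI hF k w)
  | succ n ih =>
    intro k w
    have h0 : ((n + 1 : ℕ) : WithTop ℕ∞) = (n : WithTop ℕ∞) + 1 := by push_cast; rfl
    rw [h0, contDiffOn_succ_iff_fderiv_of_isOpen (isOpen_OO T)]
    refine ⟨fun p hp => (G_deriv hI hF k w hp).differentiableAt.differentiableWithinAt,
      fun h => by simp at h, ?_⟩
    refine contDiffOn_clm_apply.mpr fun v => ?_
    have h1 : ContDiffOn ℝ n (fun p : HH × ℝ => ∑ i, Ew (i :: w) (F k p.2) p.1 *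
        Ac i p.1 v.1 + Ew w (F (k + 1) p.2) p.1 * v.2) (OO T) := by
      refine ContDiffOn.add (ContDiffOn.sum fun i _ => ?_) ((ih (k + 1) w).mul contDiffOn_const)
      refine (ih k (i :: w)).mul ?_
      have h2 : ContDiffOn ℝ inf (fun p : HH × ℝ => Ac i p.1 v.1) (OO T) :=
        ((Ac_cd i).comp contDiff_fst.contDiffOn (fun p hp => hp.1)).clm_apply contDiffOn_const
      have hle : ((n : ℕ) : WithTop ℕ∞) ≤ inf := by
        have h3 : ((n : ℕ∞) : WithTop ℕ∞) ≤ ((⊤ : ℕ∞) : WithTop ℕ∞) := by exact_mod_cast le_top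
        exact h3
      exact h2.of_le hle
    refine h1.congr fun p hp => ?_
    rw [(G_deriv hI hF k w hp).fderiv]
    simp

end

end Pool.Agent.Helper93.RF.Jsm

namespace Pool.Agent.Helper93.RF

/-- JSM. -/
theorem jsm : Pool.Agent.Helper73.RF.JsmStmt := by
  rintro T I f hI ⟨F, rfl, hF⟩
  refine ⟨?_, fun t h0 h1 => ((hF 0).fam.sm t (hI ⟨h0, h1⟩)).hom⟩
  exact contDiffOn_infty.mpr fun n => Jsm.G_cd hI hF n 0 []

end Pool.Agent.Helper93.RF
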