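import Pool.Agent.Helper73.RF.GoalsC

/-!
Project RF, packet INSA: the frame bundle of a moving frame is an instance of `FBD.Base`.
-/

set_option autoImplicit false

open Finset

namespace Pool.Agent.Helper93.RF.Insa

open Pool.Agent.Helper73.RF

variable {T : ℝ} {P : BA T}

/-! ### functions of `(x,t)` -/

theorem XT_add {f g : P.B} (hf : P.XT f) (hg : P.XT g) : P.XT (f + g) :=
  ⟨fun k => by rw [map_add, hf.1 k, hg.1 k, add_zero],
    fun k => by rw [map_add, hf.2 k, hg.2 k, add_zero]⟩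

theorem XT_sub {f g : P.B} (hf : P.XT f) (hg : P.XT g) : P.XT (f - g) :=
  ⟨fun k => by rw [map_sub, hf.1 k, hg.1 k, sub_zero],
    fun k => by rw [map_sub, hf.2 k, hg.2 k, sub_zero]⟩

theorem XT_mul {f g : P.B} (hf : P.XT f) (hg : P.XT g) : P.XT (f * g) :=
  ⟨fun k => by rw [Derivation.leibniz, hf.1 k, hg.1 k, smul_zero, smul_zero, add_zero],
    fun k => by rw [Derivation.leibniz, hf.2 k, hg.2 k, smul_zero, smul_zero, add_zero]⟩

theorem XT_smul (c : ℝ) {f : P.B} (hf : P.XT f) : P.XT (c • f) :=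
  ⟨fun k => by rw [Derivation.map_smul, hf.1 k, smul_zero],
    fun k => by rw [Derivation.map_smul, hf.2 k, smul_zero]⟩

theorem XT_sum {ι : Type} (s : Finset ι) (f : ι → P.B) (hf : ∀ i ∈ s, P.XT (f i)) :
    P.XT (∑ i ∈ s, f i) :=
  ⟨fun k => by rw [map_sum]; exact Finset.sum_eq_zero fun i hi => (hf i hi).1 k,
    fun k => by rw [map_sum]; exact Finset.sum_eq_zero fun i hi => (hf i hi).2 k⟩

theorem XT_E (hP : P.Ax) (i : Fin 3) {f : P.B} (hf : P.XT f) : P.XT (P.E i f) :=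
  ⟨fun k => by rw [← hP.EU, hf.1 k, map_zero], fun k => by rw [← hP.EV, hf.2 k, map_zero]⟩

section
variable {A θ : Fin 3 → Fin 3 → P.B}

theorem XT_Fd (hP : P.Ax) (hA : ∀ a i, P.XT (A a i)) (a : Fin 3) {f : P.B} (hf : P.XT f) :
    P.XT (FR.Fd P.E A a f) := by
  unfold FR.Fd
  exact XT_sum _ _ fun i _ => XT_mul (hA a i) (XT_E hP i hf)

theorem XT_C (hP : P.Ax) (hA : ∀ a i, P.XT (A a i)) (hθ : ∀ i a, P.XT (θ i a)) (a b c : Fin 3) :
    P.XT (FR.C P.E A θ a b c) := by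
  unfold FR.C
  refine XT_sum _ _ fun j _ => XT_mul (XT_add (XT_sub (XT_Fd hP hA a (hA b j))
    (XT_Fd hP hA b (hA a j))) (XT_smul _ (XT_sum _ _ fun i _ => XT_sum _ _ fun k _ =>
      XT_smul _ (XT_mul (hA a i) (hA b k))))) (hθ j c)

theorem XT_Gam (hP : P.Ax) (hA : ∀ a i, P.XT (A a i)) (hθ : ∀ i a, P.XT (θ i a))
    (a b c : Fin 3) : P.XT (FR.Gam P.E A θ a b c) := by
  unfold FR.Gam
  exact XT_smul _ (XT_add (XT_sub (XT_C hP hA hθ a b c) (XT_C hP hA hθ b c a))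
    (XT_C hP hA hθ c a b))

theorem XT_om (hP : P.Ax) (hA : ∀ a i, P.XT (A a i)) (hθ : ∀ i a, P.XT (θ i a))
    (a k : Fin 3) : P.XT (FR.om P.E A θ a k) := by
  unfold FR.om
  exact XT_smul _ (XT_sum _ _ fun b _ => XT_sum _ _ fun c _ => XT_smul _ (XT_Gam hP hA hθ a b c))

theorem XT_Om (hP : P.Ax) (hA : ∀ a i, P.XT (A a i)) (hθ : ∀ i a, P.XT (θ i a))
    (c d k : Fin 3) : P.XT (FR.Om P.E A θ c d k) := by
  unfold FR.Om
  exact XT_sub (XT_add (XT_sub (XT_Fd hP hA c (XT_om hP hA hθ d k))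
    (XT_Fd hP hA d (XT_om hP hA hθ c k))) (XT_sum _ _ fun l _ => XT_sum _ _ fun m _ =>
      XT_smul _ (XT_mul (XT_om hP hA hθ c l) (XT_om hP hA hθ d m))))
    (XT_sum _ _ fun e _ => XT_mul (XT_C hP hA hθ c d e) (XT_om hP hA hθ e k))

theorem XT_N (hP : P.Ax) (hA : ∀ a i, P.XT (A a i)) (hθ : ∀ i a, P.XT (θ i a))
    (l k : Fin 3) : P.XT (FR.N P.E A θ l k) := by
  unfold FR.N
  exact XT_smul _ (XT_sum _ _ fun c _ => XT_sum _ _ fun d _ => XT_smul _ (XT_Om hP hA hθ c d k))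

end

/-! ### the horizontal fields -/

theorem dsum_apply {ι B : Type} [CommRing B] [Algebra ℝ B] (s : Finset ι)
    (D : ι → Derivation ℝ B B) (f : B) : (∑ i ∈ s, D i) f = ∑ i ∈ s, D i f := by
  classical
  induction s using Finset.induction_on with
  | empty => simp
  | insert a s ha ih => rw [Finset.sum_insert ha, Finset.sum_insert ha, Derivation.add_apply, ih]

/-- `L_b f` -/
noncomputable def Lo (P : BA T) (A θ : Fin 3 → Fin 3 → P.B) (b : Fin 3) (f : P.B) : P.B :=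
  ∑ i, A b i * P.E i f + ∑ k, FR.om P.E A θ b k * P.U k f

/-- horizontal fields as derivations of `P.B` -/
noncomputable def Hh (P : BA T) (A θ : Fin 3 → Fin 3 → P.B) (a : Fin 3) :
    Derivation ℝ P.B P.B :=
  ∑ b, P.R a b • (∑ i, A b i • P.E i + ∑ k, FR.om P.E A θ b k • P.U k)

/-- `M` with values in `P.B` -/
noncomputable def Mm (P : BA T) (A θ : Fin 3 → Fin 3 → P.B) (i j : Fin 3) : P.B :=
  ∑ l, ∑ k, P.R i l * P.R j k * FR.N P.E A θ l k

/-- `S` with values in `P.B` -/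
noncomputable def Sm (P : BA T) (S0 : Fin 3 → Fin 3 → P.B) (a b : Fin 3) : P.B :=
  ∑ c, ∑ d, P.R a c * P.R b d * S0 c d

theorem H_apply (A θ : Fin 3 → Fin 3 → P.B) (a : Fin 3) (f : P.B) :
    Hh P A θ a f = ∑ b, P.R a b * Lo P A θ b f := by
  show (∑ b, P.R a b • (∑ i, A b i • P.E i + ∑ k, FR.om P.E A θ b k • P.U k)) f = _
  rw [dsum_apply]
  refine Finset.sum_congr rfl fun b _ => ?_
  rw [Derivation.smul_apply, Derivation.add_apply, dsum_apply, dsum_apply]
  rfl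

/-- coefficients of `E_i` in `H_a` -/
noncomputable def al (P : BA T) (A : Fin 3 → Fin 3 → P.B) (a i : Fin 3) : P.B :=
  ∑ b, P.R a b * A b i

/-- coefficients of `U_k` in `H_a` -/
noncomputable def ga (P : BA T) (A θ : Fin 3 → Fin 3 → P.B) (a k : Fin 3) : P.B :=
  ∑ b, P.R a b * FR.om P.E A θ b k

theorem H_apply' (A θ : Fin 3 → Fin 3 → P.B) (a : Fin 3) (f : P.B) :
    Hh P A θ a f = ∑ i, al P A a i * P.E i f + ∑ k, ga P A θ a k * P.U k f := by
  rw [H_apply]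
  unfold Lo al ga
  simp only [mul_add, Finset.sum_add_distrib, Finset.mul_sum, Finset.sum_mul]
  congr 1
  · rw [Finset.sum_comm]
    refine Finset.sum_congr rfl fun i _ => Finset.sum_congr rfl fun b _ => ?_
    ring
  · rw [Finset.sum_comm]
    refine Finset.sum_congr rfl fun i _ => Finset.sum_congr rfl fun b _ => ?_
    ring

theorem ev_lin (z : P.Z) (t : TI T) (δ : Derivation ℝ P.B P.B) (α γ e u : Fin 3 → P.B)
    (he : ∀ j, P.ev z t (e j) = 0) (hu : ∀ l, P.ev z t (u l) = 0) :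
    P.ev z t (δ (∑ j, α j * e j + ∑ l, γ l * u l)) =
      P.ev z t (δ (∑ j, (P.ev z t (α j)) • e j + ∑ l, (P.ev z t (γ l)) • u l)) := by
  simp only [map_add, map_sum, Derivation.leibniz, Derivation.map_smul, smul_eq_mul, map_mul,
    map_smul, he, hu, zero_mul, add_zero]

theorem ev_H (A θ : Fin 3 → Fin 3 → P.B) (z : P.Z) (t : TI T) (a : Fin 3) (f : P.B) :
    P.ev z t (Hh P A θ a f) = ∑ i, P.ev z t (al P A a i) * P.ev z t (P.E i f) +
      ∑ k, P.ev z t (ga P A θ a k) * P.ev z t (P.U k f) := by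
  rw [H_apply']
  simp only [map_add, map_sum, map_mul]

theorem ev_cf (z : P.Z) (t : TI T) (c d : Fin 3 → ℝ) (f : P.B) :
    P.ev z t (P.cf c d f) = ∑ i, c i * P.ev z t (P.E i f) + ∑ k, d k * P.ev z t (P.U k f) := by
  unfold BA.cf
  simp only [map_add, map_sum, map_smul, smul_eq_mul]

theorem min1 (hP : P.Ax) (A θ : Fin 3 → Fin 3 → P.B) (f : P.B) (z : P.Z) (t : TI T)
    (hm : ∀ z', P.ev z t f ≤ P.ev z' t f) (a : Fin 3) :
    P.ev z t (Hh P A θ a f) = 0 ∧
      0 ≤ P.ev z t (Hh P A θ a (Hh P A θ a f)) := by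
  have hE : ∀ i, P.ev z t (P.E i f) = 0 := by
    intro i
    have h := (hP.min f z t hm (Pi.single i 1) 0).1
    rw [ev_cf] at h
    simpa [Pi.single_apply] using h
  have hU : ∀ i, P.ev z t (P.U i f) = 0 := by
    intro i
    have h := (hP.min f z t hm 0 (Pi.single i 1)).1
    rw [ev_cf] at h
    simpa [Pi.single_apply] using h
  constructor
  · rw [ev_H]
    simp only [hE, hU, mul_zero, Finset.sum_const_zero, add_zero]
  · rw [ev_H]
    have h1 : ∀ δ : Derivation ℝ P.B P.B, P.ev z t (δ (Hh P A θ a f)) =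
        P.ev z t (δ (P.cf (fun i => P.ev z t (al P A a i)) (fun k => P.ev z t (ga P A θ a k)) f))
        := by
      intro δ
      have h := ev_lin z t δ (al P A a) (ga P A θ a) (fun j => P.E j f) (fun l => P.U l f) hE hU
      rw [← H_apply' A θ] at h
      exact h
    simp only [h1]
    rw [← ev_cf z t (fun i => P.ev z t (al P A a i)) (fun k => P.ev z t (ga P A θ a k))]
    exact (hP.min f z t hm _ _).2

theorem chainH (hP : P.Ax) (A θ : Fin 3 → Fin 3 → P.B) (φ : ℝ → ℝ) (O : Set ℝ)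
    (hO : IsOpen O) (hφ : ContDiffOn ℝ ((⊤ : ℕ∞) : WithTop ℕ∞) φ O) (f g : P.B)
    (hf : ∀ z t, P.ev z t f ∈ O) (hg : ∀ z t, P.ev z t g = φ (P.ev z t f)) (z : P.Z) (t : TI T) :
    (∀ a, P.ev z t (Hh P A θ a g) =
        deriv φ (P.ev z t f) * P.ev z t (Hh P A θ a f))
      ∧ (∀ k, P.ev z t (P.V k g) = deriv φ (P.ev z t f) * P.ev z t (P.V k f))
      ∧ P.ev z t (P.Dt g) = deriv φ (P.ev z t f) * P.ev z t (P.Dt f) := by
  obtain ⟨h1, h2, h3, h4⟩ := hP.chain φ O hO hφ f g hf hg z t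
  refine ⟨fun a => ?_, h3, h4⟩
  rw [ev_H, ev_H]
  simp only [h1, h2, mul_add, Finset.mul_sum]
  congr 1 <;> refine Finset.sum_congr rfl fun i _ => ?_ <;> ring

theorem fib (hP : P.Ax) (A θ : Fin 3 → Fin 3 → P.B) (hN : ∀ l k, P.XT (FR.N P.E A θ l k))
    (z : P.Z) (n : Fin 3 → ℝ) (hn : ∑ i, n i ^ 2 = 1) : ∃ z' : P.Z, ∀ t,
    (∀ f : P.B, (∀ k, P.V k f = 0) → P.ev z' t f = P.ev z t f)
    ∧ P.ev z' t (Mm P A θ 0 0) =
      ∑ i, ∑ j, n i * n j * P.ev z t (Mm P A θ i j) := by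
  obtain ⟨z', hz'⟩ := hP.fib z n hn
  refine ⟨z', fun t => ⟨(hz' t).1, ?_⟩⟩
  have hM : ∀ i j, Mm P A θ i j = ∑ l, ∑ k, P.R i l * P.R j k * FR.N P.E A θ l k :=
    fun i j => rfl
  simp only [hM, map_sum, map_mul, (hz' t).2, (hz' t).1 _ (hN _ _).2]
  simp only [Fin.sum_univ_three]
  ring

/-! ### linear independence -/

theorem inv_right {B : Type} [CommRing B] (A θ : Fin 3 → Fin 3 → B)
    (hA : ∀ a b, ∑ i, A a i * θ i b = if a = b then 1 else 0) (v : Fin 3 → B)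
    (h : ∀ j, ∑ b, v b * A b j = 0) : ∀ c, v c = 0 := by
  intro c
  have h1 : v c = ∑ b, v b * ∑ j, A b j * θ j c := by
    simp only [hA, mul_ite, mul_one, mul_zero, Finset.sum_ite_eq', Finset.mem_univ, if_true]
  rw [h1]
  have h2 : ∑ b, v b * ∑ j, A b j * θ j c = ∑ j, (∑ b, v b * A b j) * θ j c := by
    simp only [Finset.mul_sum, Finset.sum_mul]
    rw [Finset.sum_comm]
    refine Finset.sum_congr rfl fun i _ => Finset.sum_congr rfl fun b _ => ?_
    ring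
  rw [h2]
  simp only [h, zero_mul, Finset.sum_const_zero]

theorem eps_inv {B : Type} [CommRing B] [Algebra ℝ B] (c : Fin 3 → B)
    (h : ∀ d e, ∑ j, eps j d e • c j = 0) : ∀ j, c j = 0 := by
  intro j
  fin_cases j
  · have := h 1 2
    simpa [Fin.sum_univ_three, eps] using this
  · have := h 2 0
    simpa [Fin.sum_univ_three, eps] using this
  · have := h 0 1
    simpa [Fin.sum_univ_three, eps] using this

theorem ind (hP : P.Ax) {A θ S0 : Fin 3 → Fin 3 → P.B} (hF : P.FH A θ S0) (a b : Fin 3 → P.B)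
    (h : ∀ f : P.B, ∑ i, a i * Hh P A θ i f + ∑ k, b k * P.V k f = 0) :
    (∀ i, a i = 0) ∧ (∀ k, b k = 0) := by
  have h1 : ∀ d, ∀ e, ∑ j, (2 * eps j d e) • (∑ i, a i * al P A i j) = 0 := by
    intro d
    refine inv_right (fun e c => P.X c e) (fun c e => P.X c e) hP.XtX _ (fun c => ?_)
    have h2 := h (P.X c d)
    simp only [H_apply', hP.UX, hP.VX, hP.EX, mul_zero, Finset.sum_const_zero, add_zero] at h2
    rw [← h2]
    simp only [Fin.sum_univ_three, Algebra.smul_def, map_mul]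
    ring
  have h3 : ∀ j, ∑ i, a i * al P A i j = 0 := by
    refine eps_inv _ (fun d e => ?_)
    have h4 := h1 d e
    simp only [mul_smul, ← Finset.smul_sum] at h4
    exact (smul_eq_zero_iff_right (two_ne_zero (α := ℝ))).mp h4
  have h5 : ∀ c, ∑ i, a i * P.R i c = 0 := by
    refine inv_right A θ hF.At _ (fun j => ?_)
    rw [← h3 j]
    unfold al
    simp only [Fin.sum_univ_three]
    ring
  have ha : ∀ i, a i = 0 := inv_right P.R (fun c k => P.R k c) hP.RRt a h5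
  refine ⟨ha, ?_⟩
  refine eps_inv _ (fun d => ?_)
  refine inv_right P.R (fun c k => P.R k c) hP.RRt _ (fun e => ?_)
  have h6 := h (P.R d e)
  simp only [ha, zero_mul, Finset.sum_const_zero, zero_add, hP.VR] at h6
  rw [← h6]
  simp only [Fin.sum_univ_three, Algebra.smul_def]
  ring

/-! ### commutators -/

theorem VL (hP : P.Ax) {A θ S0 : Fin 3 → Fin 3 → P.B} (hF : P.FH A θ S0) (k b : Fin 3)
    (f : P.B) : P.V k (Lo P A θ b f) = Lo P A θ b (P.V k f) := by
  unfold Lo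
  simp only [map_add, map_sum, Derivation.leibniz, (hF.XA _ _).2, (XT_om hP hF.XA hF.Xt _ _).2,
    smul_eq_mul, mul_zero, add_zero, ← hP.EV, ← hP.UV]

theorem VH (hP : P.Ax) {A θ S0 : Fin 3 → Fin 3 → P.B} (hF : P.FH A θ S0) (k a : Fin 3)
    (f : P.B) : P.V k (Hh P A θ a f) - Hh P A θ a (P.V k f) =
      ∑ b, eps k a b • Hh P A θ b f := by
  simp only [H_apply, map_sum, Derivation.leibniz, VL hP hF, hP.VR, smul_eq_mul]
  simp only [Fin.sum_univ_three, Algebra.smul_def]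
  ring

theorem DL (hP : P.Ax) {A θ S0 : Fin 3 → Fin 3 → P.B} (hF : P.FH A θ S0) (b : Fin 3)
    (f : P.B) : P.Dt (Lo P A θ b f) = Lo P A θ b (P.Dt f) + ∑ c, S0 b c * Lo P A θ c f +
      ∑ k, (P.Dt (FR.om P.E A θ b k) - ∑ c, S0 b c * FR.om P.E A θ c k) * P.U k f := by
  unfold Lo
  simp only [map_add, map_sum, Derivation.leibniz, smul_eq_mul, hP.DE, hP.DU, hF.DA]
  simp only [Fin.sum_univ_three]
  ring

theorem SH (hP : P.Ax) (A θ S0 : Fin 3 → Fin 3 → P.B) (a : Fin 3) (f : P.B) :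
    ∑ d, Sm P S0 a d * Hh P A θ d f =
      ∑ b, P.R a b * ∑ c, S0 b c * Lo P A θ c f := by
  have hS : ∀ d, Sm P S0 a d = ∑ c, ∑ e, P.R a c * P.R d e * S0 c e := fun d => rfl
  simp only [hS, H_apply]
  have h1 : ∀ c e : Fin 3, ∑ d, P.R d e * P.R d c = if e = c then 1 else 0 :=
    fun c e => hP.RtR e c
  have h2 : ∑ d, (∑ c, ∑ e, P.R a c * P.R d e * S0 c e) * ∑ b, P.R d b * Lo P A θ b f =
      ∑ c, ∑ e, ∑ b, P.R a c * S0 c e * Lo P A θ b f * ∑ d, P.R d e * P.R d b := by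
    simp only [Fin.sum_univ_three]
    ring
  refine h2.trans ?_
  simp only [h1, mul_ite, mul_one, mul_zero, Finset.sum_ite_eq, Finset.mem_univ, if_true]
  refine Finset.sum_congr rfl fun c _ => ?_
  rw [Finset.mul_sum]
  refine Finset.sum_congr rfl fun e _ => ?_
  ring

theorem DH (hP : P.Ax) {A θ S0 : Fin 3 → Fin 3 → P.B} (hF : P.FH A θ S0) (a : Fin 3)
    (f : P.B) : P.Dt (Hh P A θ a f) = Hh P A θ a (P.Dt f)
      + ∑ b, Sm P S0 a b * Hh P A θ b f
      + ∑ k, (-∑ l, (∑ b, P.R a b * (P.Dt (FR.om P.E A θ b l) -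
          ∑ c, S0 b c * FR.om P.E A θ c l)) * P.R k l) * P.V k f := by
  rw [SH hP]
  simp only [H_apply, map_sum, Derivation.leibniz, DL hP hF, hP.DR, smul_eq_mul, hP.UeV]
  simp only [Fin.sum_univ_three]
  ring

theorem Ssymm {A θ S0 : Fin 3 → Fin 3 → P.B} (hF : P.FH A θ S0) (i j : Fin 3) :
    Sm P S0 i j = Sm P S0 j i := by
  unfold Sm
  rw [Finset.sum_comm]
  refine Finset.sum_congr rfl fun c _ => Finset.sum_congr rfl fun e _ => ?_
  rw [hF.Ssy e c]
  ring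

/-- INSA. -/
theorem insa (h : InsbStmt) : InsaStmt := by
  intro T P hP A θ S0 hF
  have hom := XT_om hP hF.XA hF.Xt
  have hN := XT_N hP hF.XA hF.Xt
  refine ⟨?_, hom, hN⟩
  have httH : ∀ a, Hh P A θ a P.tt = 0 := by
    intro a
    rw [H_apply']
    simp only [hP.tt_E, hP.tt_U, mul_zero, Finset.sum_const_zero, add_zero]
  exact
    { ext := hP.ext
      cont := hP.cont
      tt_ev := hP.tt_ev
      tt_D := hP.tt_D
      tt_H := httH
      tt_V := hP.tt_V
      time := hP.time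
      min1 := fun f z t hm a => min1 hP A θ f z t hm a
      comp := hP.comp
      chain := fun φ O hO hφ f g hf hg z t => chainH hP A θ φ O hO hφ f g hf hg z t
      fib := fun z n hn => fib hP A θ hN z n hn
      ind := fun a b hab => ind hP hF a b hab
      VV := hP.VV
      VH := fun k a f => VH hP hF k a f
      HH := h T P hP A θ S0 hF
      DV := hP.DV
      DH := ⟨fun a k => (-∑ l, (∑ b, P.R a b * (P.Dt (FR.om P.E A θ b l) -
          ∑ c, S0 b c * FR.om P.E A θ c l)) * P.R k l), fun a f => DH hP hF a f⟩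
      Ssymm := fun i j => Ssymm hF i j }

end Pool.Agent.Helper93.RF.Insa

namespace Pool.Agent.Helper93.RF

/-- INSA. -/
theorem insa (h : Pool.Agent.Helper73.RF.InsbStmt) : Pool.Agent.Helper73.RF.InsaStmt :=
  Insa.insa h

end Pool.Agent.Helper93.RF
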