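import Pool.Agent.Helper64.RF.GoalsF

/-!
Project RF, part F, packet DEV: existence of the almost developing map.
-/

open Quaternion MeasureTheory

open scoped RealInnerProductSpace

namespace Pool.Agent.Helper93.RF

open Pool.Agent.Helper64.RF

theorem dev_core {g : ℍ[ℝ] → W →L[ℝ] W →L[ℝ] ℝ}
    {Bt : W → W →L[ℝ] ((W × ℝ) →L[ℝ] (W × ℝ))}
    (hBtf : ∀ ξ a Y f, (Bt ξ a (Y, f)).2 = - g (X ξ) (Jc ξ a) Y)
    {P : W → (ℍ[ℝ] →L[ℝ] (W × ℝ))} {Pi : W → ((W × ℝ) →L[ℝ] ℍ[ℝ])}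
    (hP : ContDiff ℝ (⊤ : ℕ∞) P) (hPi : ContDiff ℝ (⊤ : ℕ∞) Pi)
    (hin : ∀ ξ s q, ⟪Pi ξ s, q⟫ = Gh g (X ξ) s (P ξ q)) (ξ a : W) :
    ‖fderiv ℝ (fun ζ => Pi ζ (0, 1)) ξ a - Pi ξ (Jc ξ a, 0)‖ ≤
      ‖fderiv ℝ P ξ a + (Bt ξ a).comp (P ξ)‖ := by
  have hPd : HasFDerivAt P (fderiv ℝ P ξ) ξ :=
    (hP.differentiable (by simp) ξ).hasFDerivAt
  have hΦs : ContDiff ℝ (⊤ : ℕ∞) (fun ζ => Pi ζ (0, 1)) := hPi.clm_apply contDiff_const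
  have hΦd : HasFDerivAt (fun ζ => Pi ζ (0, 1)) (fderiv ℝ (fun ζ => Pi ζ (0, 1)) ξ) ξ :=
    (hΦs.differentiable (by simp) ξ).hasFDerivAt
  have key : ∀ q : ℍ[ℝ], ⟪q, fderiv ℝ (fun ζ => Pi ζ (0, 1)) ξ a⟫ = (fderiv ℝ P ξ a q).2 := by
    intro q
    have h1 : HasFDerivAt (fun ζ => ⟪q, Pi ζ (0, 1)⟫)
        ((innerSL ℝ q).comp (fderiv ℝ (fun ζ => Pi ζ (0, 1)) ξ)) ξ :=
      (innerSL ℝ q).hasFDerivAt.comp ξ hΦd
    have h2 : HasFDerivAt (fun ζ => (P ζ q).2)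
        (((ContinuousLinearMap.snd ℝ W ℝ).comp
          (ContinuousLinearMap.apply ℝ (W × ℝ) q)).comp (fderiv ℝ P ξ)) ξ :=
      ((ContinuousLinearMap.snd ℝ W ℝ).comp
        (ContinuousLinearMap.apply ℝ (W × ℝ) q)).hasFDerivAt.comp ξ hPd
    have h3 : (fun ζ => ⟪q, Pi ζ (0, 1)⟫) = fun ζ => (P ζ q).2 := by
      funext ζ
      rw [real_inner_comm, hin]
      simp [Gh]
    rw [h3] at h1
    have h4 := h1.unique h2
    have h5 := congrArg (fun L => L a) h4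
    simpa using h5
  set b := fderiv ℝ P ξ a + (Bt ξ a).comp (P ξ) with hb
  have key2 : ∀ q : ℍ[ℝ],
      ⟪q, fderiv ℝ (fun ζ => Pi ζ (0, 1)) ξ a - Pi ξ (Jc ξ a, 0)⟫ = (b q).2 := by
    intro q
    rw [inner_sub_right, key q, real_inner_comm, hin, hb]
    have h6 := hBtf ξ a (P ξ q).1 (P ξ q).2
    rw [Prod.mk.eta] at h6
    simp only [Gh, add_apply, ContinuousLinearMap.comp_apply, Prod.snd_add]
    rw [h6]
    ring
  set d := fderiv ℝ (fun ζ => Pi ζ (0, 1)) ξ a - Pi ξ (Jc ξ a, 0) with hd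
  by_cases h0 : ‖d‖ = 0
  · rw [h0]
    exact norm_nonneg b
  have h1 : 0 < ‖d‖ := lt_of_le_of_ne (norm_nonneg _) (Ne.symm h0)
  have h2 : ‖d‖ * ‖d‖ ≤ ‖b‖ * ‖d‖ := by
    calc ‖d‖ * ‖d‖ = ⟪d, d⟫ := (real_inner_self_eq_norm_mul_norm d).symm
      _ = (b d).2 := key2 d
      _ ≤ |(b d).2| := le_abs_self _
      _ ≤ ‖b d‖ := by
          rw [← Real.norm_eq_abs]
          exact norm_snd_le (b d)
      _ ≤ ‖b‖ * ‖d‖ := b.le_opNorm d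
  exact le_of_mul_le_mul_right h2 h1

theorem Jc_le (cay : CAY) (ξ a : W) : ‖Jc ξ a‖ ≤ 4 * ‖a‖ := by
  obtain ⟨-, -, -, h4, -⟩ := cay
  have h1 := norm_sq_le_sq (Jc ξ a)
  rw [h4] at h1
  have h2 := sq_le_norm_sq a
  have h3 := sq_nonneg' ξ
  have h5 : 1 ≤ nn ξ := by
    unfold nn
    linarith
  have h6 : 4 / nn ξ ^ 2 ≤ 4 := by
    rw [div_le_iff₀ (by positivity)]
    nlinarith
  have h7 := sq_nonneg' a
  have h8 : ‖Jc ξ a‖ ^ 2 ≤ (4 * ‖a‖) ^ 2 := by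
    calc ‖Jc ξ a‖ ^ 2 ≤ 4 / nn ξ ^ 2 * Helper64.RF.sq a := h1
      _ ≤ 4 * Helper64.RF.sq a := mul_le_mul_of_nonneg_right h6 h7
      _ ≤ (4 * ‖a‖) ^ 2 := by nlinarith [sq_nonneg ‖a‖]
  exact le_of_sq_le_sq h8 (by positivity)

theorem dev (cay : CAY) (con : CON) (pex : PEX) (rad : RAD) : DEV := by
  intro c0 C0 R hc0 hC0 hR
  obtain ⟨K1, hK1⟩ : ∃ K1 : ℝ, K1 = 1 + 1 / c0 + 3 * C0 := ⟨_, rfl⟩
  have hc0' : 0 < 1 / c0 := by positivity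
  have hK1p : 1 ≤ K1 := by rw [hK1]; linarith
  have hK1s : K1 ≤ K1 ^ 2 := by nlinarith
  refine ⟨16 * K1 ^ 3 * R, by positivity, ?_⟩
  intro g G η hη hB
  obtain ⟨Bt, hBs, hBf, hBc, hBF⟩ := con g G hB.met hB.lc
  obtain ⟨P, Pi, hP, hPi, hPPi, hPiP, hrad, hiso, hin⟩ := pex g G hB.met hB.lc Bt hBs hBc
  have hX : ∀ ξ, X ξ ≠ 0 := cay.1
  have hii : ∀ ξ s s', ⟪Pi ξ s, Pi ξ s'⟫ = Gh g (X ξ) s s' := by
    intro ξ s s'
    rw [hin]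
    have h := congrArg (fun L => L s') (hPPi ξ)
    simp only [ContinuousLinearMap.comp_apply, ContinuousLinearMap.id_apply] at h
    rw [h]
  have hPn : ∀ ξ, ‖P ξ‖ ≤ K1 := by
    intro ξ
    refine ContinuousLinearMap.opNorm_le_bound _ (by linarith) (fun q => ?_)
    have h1 := hiso ξ q q
    rw [real_inner_self_eq_norm_sq] at h1
    unfold Gh at h1
    have h2 := hB.lower (X ξ) (hX ξ) (P ξ q).1
    have h3 := norm_sq_le_sq (P ξ q).1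
    have h4 : c0 * ‖(P ξ q).1‖ ^ 2 ≤ ‖q‖ ^ 2 := by nlinarith [sq_nonneg (P ξ q).2]
    have h5 : (P ξ q).2 ^ 2 ≤ ‖q‖ ^ 2 := by nlinarith [sq_nonneg' (P ξ q).1]
    rw [Prod.norm_def]
    refine max_le ?_ ?_
    · refine le_of_sq_le_sq ?_ (by positivity)
      have h6 : ‖(P ξ q).1‖ ^ 2 ≤ 1 / c0 * ‖q‖ ^ 2 := by
        rw [one_div, inv_mul_eq_div, le_div_iff₀ hc0]
        linarith
      have h7 : 1 / c0 ≤ K1 ^ 2 := by linarith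
      calc ‖(P ξ q).1‖ ^ 2 ≤ 1 / c0 * ‖q‖ ^ 2 := h6
        _ ≤ K1 ^ 2 * ‖q‖ ^ 2 := mul_le_mul_of_nonneg_right h7 (by positivity)
        _ = (K1 * ‖q‖) ^ 2 := by ring
    · refine le_of_sq_le_sq ?_ (by positivity)
      rw [Real.norm_eq_abs, sq_abs]
      calc (P ξ q).2 ^ 2 ≤ ‖q‖ ^ 2 := h5
        _ ≤ (K1 * ‖q‖) ^ 2 := by
          rw [mul_pow]
          nlinarith [sq_nonneg ‖q‖]
  have hPin : ∀ ξ, ‖Pi ξ‖ ≤ K1 := by
    intro ξ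
    refine ContinuousLinearMap.opNorm_le_bound _ (by linarith) (fun s => ?_)
    have h1 := hii ξ s s
    rw [real_inner_self_eq_norm_sq] at h1
    unfold Gh at h1
    have h2 := hB.upper (X ξ) (hX ξ) s.1
    have h3 := sq_le_norm_sq s.1
    have h4 : ‖s.1‖ ^ 2 ≤ ‖s‖ ^ 2 := by
      have := norm_fst_le s
      gcongr
    have h5 : s.2 ^ 2 ≤ ‖s‖ ^ 2 := by
      have := norm_snd_le s
      rw [Real.norm_eq_abs] at this
      rw [← sq_abs]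
      gcongr
    refine le_of_sq_le_sq ?_ (by positivity)
    rw [h1, mul_pow]
    have h6 : C0 * Helper64.RF.sq s.1 ≤ C0 * (3 * ‖s‖ ^ 2) := mul_le_mul_of_nonneg_left (by linarith) hC0.le
    have h7 : (1 + 3 * C0) * ‖s‖ ^ 2 ≤ K1 ^ 2 * ‖s‖ ^ 2 :=
      mul_le_mul_of_nonneg_right (by linarith) (by positivity)
    nlinarith
  have hF : ∀ ξ a b, ‖Fc Bt ξ a b‖ ≤ 16 * η * ‖a‖ * ‖b‖ := by
    intro ξ a b
    refine ContinuousLinearMap.opNorm_le_bound _ (by positivity) (fun s => ?_)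
    have h1 := hBF ξ a b s.1 s.2
    rw [Prod.mk.eta] at h1
    rw [h1]
    have h2 := hB.curv (X ξ) (hX ξ) (Jc ξ a) (Jc ξ b) s.1
    have h3 := Jc_le cay ξ a
    have h4 := Jc_le cay ξ b
    have h5 := norm_fst_le s
    rw [Prod.norm_def]
    refine max_le ?_ ?_
    · calc _ ≤ η * ‖Jc ξ a‖ * ‖Jc ξ b‖ * ‖s.1‖ := h2
        _ ≤ η * (4 * ‖a‖) * (4 * ‖b‖) * ‖s‖ := by gcongr
        _ = 16 * η * ‖a‖ * ‖b‖ * ‖s‖ := by ring
    · simp only [norm_zero]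
      positivity
  have hRad := rad (W × ℝ) ℍ[ℝ] Bt P Pi R K1 (16 * η) hBs hP hPi hPPi hPiP hrad (by linarith)
    (by positivity) (fun ξ _ => ⟨hPn ξ, hPin ξ, hF ξ⟩)
  refine ⟨fun ξ => Pi ξ (0, 1), fun ξ => (Pi ξ).comp (ContinuousLinearMap.inl ℝ W ℝ), ?_⟩
  refine ⟨hPi.clm_apply contDiff_const, ?_, ?_, ?_, ?_⟩
  · intro ξ
    have h1 := hii ξ (0, 1) (0, 1)
    rw [real_inner_self_eq_norm_sq] at h1
    have h2 : Gh g (X ξ) (0, 1) (0, 1) = 1 := by simp [Gh]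
    rw [h2] at h1
    exact (pow_eq_one_iff_of_nonneg (norm_nonneg _) two_ne_zero).mp h1
  · intro ξ v
    have h1 := hii ξ (0, 1) (v, 0)
    simpa [Gh] using h1
  · intro ξ v w
    have h1 := hii ξ (v, 0) (w, 0)
    simpa [Gh] using h1
  · intro ξ hξ a
    have h1 : ‖ξ‖ ≤ R := by
      refine le_of_sq_le_sq ?_ hR.le
      exact (norm_sq_le_sq ξ).trans hξ
    have h2 := hRad ξ h1 a
    have h3 := dev_core (g := g) (Bt := Bt) (fun ξ a Y f => by rw [hBf]) hP hPi hin ξ a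
    calc _ ≤ ‖fderiv ℝ P ξ a + (Bt ξ a).comp (P ξ)‖ := h3
      _ ≤ K1 ^ 3 * (16 * η) * R * ‖a‖ := h2
      _ = 16 * K1 ^ 3 * R * η * ‖a‖ := by ring

end Pool.Agent.Helper93.RF
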