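import Pool.Agent.Helper73.RF.GoalsE
import Pool.Agent.Helper93.RF.INSA
import Pool.Agent.Helper93.RF.JSM
import Pool.Agent.Helper93.RF.C8

/-!
Project RF, packet NR0: behaviour of the bundle of a flow at time `0`.
-/

set_option autoImplicit false

open Finset Pool.Agent.Helper47.RF

namespace Pool.Agent.Helper93.RF.Nr0

open Pool.Agent.Helper73.RF

/-! ### formulas of the moving frame in a subalgebra -/

section
variable {𝒜 : Type} [CommRing 𝒜] [Algebra ℝ 𝒜] {E : Fin 3 → Derivation ℝ 𝒜 𝒜}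
  {S : Subalgebra ℝ 𝒜} {A θ : Fin 3 → Fin 3 → 𝒜}

theorem S_Fd (hE : ∀ i f, f ∈ S → E i f ∈ S) (hA : ∀ a i, A a i ∈ S) (a : Fin 3) {f : 𝒜}
    (hf : f ∈ S) : FR.Fd E A a f ∈ S := by
  unfold FR.Fd
  exact S.sum_mem fun i _ => S.mul_mem (hA a i) (hE i f hf)

theorem S_C (hE : ∀ i f, f ∈ S → E i f ∈ S) (hA : ∀ a i, A a i ∈ S) (hθ : ∀ i a, θ i a ∈ S)
    (a b c : Fin 3) : FR.C E A θ a b c ∈ S := by
  unfold FR.C
  refine S.sum_mem fun j _ => S.mul_mem (S.add_mem (S.sub_mem (S_Fd hE hA a (hA b j))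
    (S_Fd hE hA b (hA a j))) (S.smul_mem (S.sum_mem fun i _ => S.sum_mem fun k _ =>
      S.smul_mem (S.mul_mem (hA a i) (hA b k)) _) _)) (hθ j c)

theorem S_Gam (hE : ∀ i f, f ∈ S → E i f ∈ S) (hA : ∀ a i, A a i ∈ S) (hθ : ∀ i a, θ i a ∈ S)
    (a b c : Fin 3) : FR.Gam E A θ a b c ∈ S := by
  unfold FR.Gam
  exact S.smul_mem (S.add_mem (S.sub_mem (S_C hE hA hθ a b c) (S_C hE hA hθ b c a))
    (S_C hE hA hθ c a b)) _

theorem S_om (hE : ∀ i f, f ∈ S → E i f ∈ S) (hA : ∀ a i, A a i ∈ S) (hθ : ∀ i a, θ i a ∈ S)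
    (a k : Fin 3) : FR.om E A θ a k ∈ S := by
  unfold FR.om
  exact S.smul_mem (S.sum_mem fun b _ => S.sum_mem fun c _ =>
    S.smul_mem (S_Gam hE hA hθ a b c) _) _

theorem S_Om (hE : ∀ i f, f ∈ S → E i f ∈ S) (hA : ∀ a i, A a i ∈ S) (hθ : ∀ i a, θ i a ∈ S)
    (c d k : Fin 3) : FR.Om E A θ c d k ∈ S := by
  unfold FR.Om
  exact S.sub_mem (S.add_mem (S.sub_mem (S_Fd hE hA c (S_om hE hA hθ d k))
    (S_Fd hE hA d (S_om hE hA hθ c k))) (S.sum_mem fun l _ => S.sum_mem fun m _ =>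
      S.smul_mem (S.mul_mem (S_om hE hA hθ c l) (S_om hE hA hθ d m)) _))
    (S.sum_mem fun e _ => S.mul_mem (S_C hE hA hθ c d e) (S_om hE hA hθ e k))

theorem S_N (hE : ∀ i f, f ∈ S → E i f ∈ S) (hA : ∀ a i, A a i ∈ S) (hθ : ∀ i a, θ i a ∈ S)
    (l k : Fin 3) : FR.N E A θ l k ∈ S := by
  unfold FR.N
  exact S.smul_mem (S.sum_mem fun c _ => S.sum_mem fun d _ =>
    S.smul_mem (S_Om hE hA hθ c d k) _) _

theorem der_adjoin {G : Set 𝒜} (D : Derivation ℝ 𝒜 𝒜) (hD : ∀ g ∈ G, D g ∈ Algebra.adjoin ℝ G)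
    {f : 𝒜} (hf : f ∈ Algebra.adjoin ℝ G) : D f ∈ Algebra.adjoin ℝ G := by
  induction hf using Algebra.adjoin_induction with
  | mem x hx => exact hD x hx
  | algebraMap r => rw [Derivation.map_algebraMap]; exact Subalgebra.zero_mem _
  | add x y _ _ hx hy => rw [map_add]; exact Subalgebra.add_mem _ hx hy
  | mul x y hx hy hx' hy' =>
    rw [Derivation.leibniz, smul_eq_mul, smul_eq_mul]
    exact Subalgebra.add_mem _ (Subalgebra.mul_mem _ hx hy') (Subalgebra.mul_mem _ hy hx')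

end

/-! ### elements which extend to `t = 0` -/

section
variable {T : ℝ}

/-- `h` extends `f` to `t = 0` -/
def ExH (f : (baC T).B) (h : ZZ × ℝ → ℝ) : Prop :=
  ContinuousOn h (Set.univ ×ˢ Set.Ico 0 T) ∧ ∀ (z : ZZ) (t : TI T), (baC T).ev z t f = h (z, t)

theorem exH_bd0 (hT : 0 < T) {f : (baC T).B} {h : ZZ × ℝ → ℝ} (hh : ExH f h) :
    ∃ C t0 : ℝ, 0 < t0 ∧ t0 < T ∧ ∀ (z : ZZ) (t : TI T), (t : ℝ) < t0 →
      |(baC T).ev z t f| ≤ C := by
  have hK : IsCompact ((Set.univ : Set ZZ) ×ˢ Set.Icc (0 : ℝ) (T / 2)) :=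
    isCompact_univ.prod isCompact_Icc
  have hc : ContinuousOn h ((Set.univ : Set ZZ) ×ˢ Set.Icc (0 : ℝ) (T / 2)) :=
    hh.1.mono (Set.prod_mono le_rfl fun t ht => ⟨ht.1, by linarith [ht.2]⟩)
  obtain ⟨C, hC⟩ := hK.exists_bound_of_continuousOn hc
  refine ⟨C, T / 2, by linarith, by linarith, fun z t ht => ?_⟩
  rw [hh.2]
  exact hC _ ⟨Set.mem_univ _, t.2.1.le, ht.le⟩

theorem exH_ini (hT : 0 < T) {f : (baC T).B} {h : ZZ × ℝ → ℝ} (hh : ExH f h) {c : ℝ}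
    (hc : ∀ z, c ≤ h (z, 0)) : ∀ ε > 0, ∃ t0 > 0, t0 < T ∧ ∀ (z : ZZ) (t : TI T),
      (t : ℝ) < t0 → c - ε ≤ (baC T).ev z t f := by
  intro ε hε
  have hK : IsCompact ((Set.univ : Set ZZ) ×ˢ Set.Icc (0 : ℝ) (T / 2)) :=
    isCompact_univ.prod isCompact_Icc
  have hc' : ContinuousOn h ((Set.univ : Set ZZ) ×ˢ Set.Icc (0 : ℝ) (T / 2)) :=
    hh.1.mono (Set.prod_mono le_rfl fun t ht => ⟨ht.1, by linarith [ht.2]⟩)
  have hu := hK.uniformContinuousOn_of_continuous hc'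
  rw [Metric.uniformContinuousOn_iff] at hu
  obtain ⟨δ, hδ, hu⟩ := hu ε hε
  refine ⟨min δ (T / 2), lt_min hδ (by linarith), (min_le_right _ _).trans_lt (by linarith),
    fun z t ht => ?_⟩
  have h1 := hu (z, (t : ℝ)) ⟨Set.mem_univ _, t.2.1.le, (ht.trans_le (min_le_right _ _)).le⟩
    (z, 0) ⟨Set.mem_univ _, le_rfl, by linarith⟩ (by
      rw [Prod.dist_eq]
      simp only [dist_self]
      rw [Real.dist_eq, sub_zero, abs_of_pos t.2.1]
      exact max_lt hδ (ht.trans_le (min_le_left _ _)))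
  rw [Real.dist_eq] at h1
  rw [hh.2]
  have h2 := hc z
  have h3 := (abs_lt.mp h1).1
  linarith

/-- elements with an extension form a subalgebra -/
noncomputable def ES (T : ℝ) : Subalgebra ℝ (baC T).B where
  carrier := {f | ∃ h, ExH f h}
  mul_mem' := by
    rintro f g ⟨h, hh⟩ ⟨h', hh'⟩
    exact ⟨fun p => h p * h' p, hh.1.mul hh'.1, fun z t => by rw [map_mul, hh.2, hh'.2]⟩
  add_mem' := by
    rintro f g ⟨h, hh⟩ ⟨h', hh'⟩
    exact ⟨fun p => h p + h' p, hh.1.add hh'.1, fun z t => by rw [map_add, hh.2, hh'.2]⟩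
  algebraMap_mem' := fun c =>
    ⟨fun _ => c, continuousOn_const, fun z t => by rw [AlgHom.commutes]; rfl⟩

/-- generators -/
def GG (T : ℝ) : Set (baC T).B :=
  {f | (∃ a b, f = (baC T).R a b) ∨
    ∃ (u : ℝ → HH → ℝ) (hu : JS T u), SmFam (Set.Ico 0 T) u ∧ f = emb u hu}

/-- the good subalgebra -/
noncomputable def KS (T : ℝ) : Subalgebra ℝ (baC T).B := Algebra.adjoin ℝ (GG T)

theorem R_mem (a b : Fin 3) : (baC T).R a b ∈ KS T :=
  Algebra.subset_adjoin (Or.inl ⟨a, b, rfl⟩)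

theorem emb_mem {u : ℝ → HH → ℝ} (hu : JS T u) (hs : SmFam (Set.Ico 0 T) u) :
    emb u hu ∈ KS T :=
  Algebra.subset_adjoin (Or.inr ⟨u, hu, hs, rfl⟩)

theorem KS_E (h6 : D6Stmt) (h3 : D3Stmt) (h8 : Goal_C8) (i : Fin 3) {f : (baC T).B}
    (hf : f ∈ KS T) : (baC T).E i f ∈ KS T := by
  refine der_adjoin _ ?_ hf
  rintro g (⟨a, b, rfl⟩ | ⟨u, hu, hs, rfl⟩)
  · rw [(h3 T).2.2.1]
    exact Subalgebra.zero_mem _
  · obtain ⟨-, -, hE, -⟩ := (h6 T).1 u hu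
    obtain ⟨hE', he⟩ := hE i
    rw [he]
    exact emb_mem hE' ((h8 _).2.2.2.2.2.1 u i hs)

theorem KS_U (h6 : D6Stmt) (h3 : D3Stmt) (k : Fin 3) {f : (baC T).B}
    (hf : f ∈ KS T) : (baC T).U k f ∈ KS T := by
  refine der_adjoin _ ?_ hf
  rintro g (⟨a, b, rfl⟩ | ⟨u, hu, hs, rfl⟩)
  · rw [(h3 T).1]
    exact Subalgebra.sum_mem _ fun c _ => Subalgebra.smul_mem _ (R_mem a c) _
  · obtain ⟨-, hX, -⟩ := (h6 T).1 u hu
    rw [hX.1 k]
    exact Subalgebra.zero_mem _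

theorem KS_ES : KS T ≤ ES T := by
  refine Algebra.adjoin_le ?_
  rintro g (⟨a, b, rfl⟩ | ⟨u, hu, hs, rfl⟩)
  · refine ⟨fun p => rotf (p.1.2 : Metric.sphere (0 : HH) 1) a b, ?_, fun z t => rfl⟩
    have h1 : Continuous (fun z : ZZ × ℝ => ((z.1.2 : Metric.sphere (0 : HH) 1) : HH)) :=
      continuous_subtype_val.comp (continuous_snd.comp continuous_fst)
    exact ((sm_rotf a b).cd.continuousOn.comp h1.continuousOn
      (fun z _ => sph_ne z.1.2))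
  · refine ⟨fun p => u p.2 (p.1.1 : Metric.sphere (0 : HH) 1), ?_, fun z t => rfl⟩
    have h1 : Continuous (fun z : ZZ × ℝ => (z.2, ((z.1.1 : Metric.sphere (0 : HH) 1) : HH))) :=
      continuous_snd.prodMk (continuous_subtype_val.comp (continuous_fst.comp continuous_fst))
    exact (hs.cont []).comp h1.continuousOn (fun z hz => ⟨hz.2, sph_ne z.1.1⟩)

end

/-! ### families -/

section
variable {I : Set ℝ}

theorem fm_const (h8 : Goal_C8) (c : ℝ) : SmFam I (fun _ _ => c) :=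
  (h8 I).1 (fun _ => c) continuousOn_const

theorem fm_add (h8 : Goal_C8) {f h : ℝ → HH → ℝ} (hf : SmFam I f) (hh : SmFam I h) :
    SmFam I (fun t x => f t x + h t x) := (h8 I).2.1 f h hf hh

theorem fm_sub (h8 : Goal_C8) {f h : ℝ → HH → ℝ} (hf : SmFam I f) (hh : SmFam I h) :
    SmFam I (fun t x => f t x - h t x) := (h8 I).2.2.1 f h hf hh

theorem fm_mul (h8 : Goal_C8) {f h : ℝ → HH → ℝ} (hf : SmFam I f) (hh : SmFam I h) :
    SmFam I (fun t x => f t x * h t x) := (h8 I).2.2.2.1 f h hf hh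

theorem fm_E (h8 : Goal_C8) {f : ℝ → HH → ℝ} (hf : SmFam I f) (i : Fin 3) :
    SmFam I (fun t x => E i (f t) x) := (h8 I).2.2.2.2.2.1 f i hf

theorem fm_sum (h8 : Goal_C8) {f : Fin 3 → ℝ → HH → ℝ} (hf : ∀ a, SmFam I (f a)) :
    SmFam I (fun t x => ∑ a, f a t x) :=
  (h8 I).2.2.2.2.2.2.2 (Fin 3) Finset.univ f fun a _ => hf a

theorem fm_cmul (h8 : Goal_C8) (c : ℝ) {f : ℝ → HH → ℝ} (hf : SmFam I f) :
    SmFam I (fun t x => c * f t x) := fm_mul h8 (fm_const h8 c) hf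

theorem fm_congr {f h : ℝ → HH → ℝ} (hf : SmFam I f) (he : ∀ t ∈ I, ∀ x, h t x = f t x) :
    SmFam I h :=
  C8.fam_congr hf fun t ht => funext fun x => he t ht x

section
variable {A θ : ℝ → MF}

theorem fm_g (h8 : Goal_C8) (ht : ∀ i a, SmFam I (fun t x => θ t x i a)) (i j : Fin 3) :
    SmFam I (fun t x => gOf (θ t) x i j) := by
  refine fm_congr (fm_sum h8 (f := fun a t x => θ t x i a * θ t x j a)
    fun a => fm_mul h8 (ht i a) (ht j a)) fun t _ x => ?_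
  unfold gOf
  rw [Matrix.mul_apply]
  rfl

theorem g_inv {A θ : MF} {x : HH} (h : A x * θ x = 1) :
    (gOf θ x)⁻¹ = (A x).transpose * A x := by
  refine Matrix.inv_eq_right_inv ?_
  unfold gOf
  have h2 : θ x * A x = 1 := mul_eq_one_comm.mp h
  calc θ x * (θ x).transpose * ((A x).transpose * A x)
      = θ x * ((A x * θ x).transpose) * A x := by
        rw [Matrix.transpose_mul]
        simp only [Matrix.mul_assoc]
    _ = 1 := by rw [h, Matrix.transpose_one, Matrix.mul_one, h2]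

theorem fm_gi (h8 : Goal_C8) (hi : ∀ t ∈ I, ∀ x, A t x * θ t x = 1)
    (hA : ∀ a i, SmFam I (fun t x => A t x a i)) (i j : Fin 3) :
    SmFam I (fun t x => (gOf (θ t) x)⁻¹ i j) := by
  refine fm_congr (fm_sum h8 (f := fun a t x => A t x a i * A t x a j)
    fun a => fm_mul h8 (hA a i) (hA a j)) fun t ht x => ?_
  rw [g_inv (hi t ht x), Matrix.mul_apply]
  rfl

theorem fm_GamL (h8 : Goal_C8) (ht : ∀ i a, SmFam I (fun t x => θ t x i a)) (i j k : Fin 3) :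
    SmFam I (fun t x => GamL (gOf (θ t)) i j k x) := by
  have hg := fm_g h8 ht
  have h1 : SmFam I (fun t x => (1 / 2 : ℝ) * (E i (fun y => gOf (θ t) y j k) x
      + E j (fun y => gOf (θ t) y i k) x - E k (fun y => gOf (θ t) y i j) x
      + 2 * ∑ l, (Pool.Agent.Helper47.RF.eps i j l * gOf (θ t) x l k - Pool.Agent.Helper47.RF.eps i k l * gOf (θ t) x l j
        - Pool.Agent.Helper47.RF.eps j k l * gOf (θ t) x l i))) := by
    refine fm_cmul h8 _ (fm_add h8 (fm_sub h8 (fm_add h8 (fm_E h8 (hg j k) i)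
      (fm_E h8 (hg i k) j)) (fm_E h8 (hg i j) k)) (fm_cmul h8 _ ?_))
    exact fm_sum h8 (f := fun l t x => Pool.Agent.Helper47.RF.eps i j l * gOf (θ t) x l k - Pool.Agent.Helper47.RF.eps i k l * gOf (θ t) x l j
        - Pool.Agent.Helper47.RF.eps j k l * gOf (θ t) x l i) fun l => fm_sub h8 (fm_sub h8 (fm_cmul h8 _ (hg l k))
          (fm_cmul h8 _ (hg l j))) (fm_cmul h8 _ (hg l i))
  refine fm_congr h1 fun t _ x => ?_
  unfold GamL
  ring

theorem fm_Gam (h8 : Goal_C8) (hi : ∀ t ∈ I, ∀ x, A t x * θ t x = 1)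
    (hA : ∀ a i, SmFam I (fun t x => A t x a i))
    (ht : ∀ i a, SmFam I (fun t x => θ t x i a)) (i j k : Fin 3) :
    SmFam I (fun t x => Pool.Agent.Helper47.RF.Gam (gOf (θ t)) i j k x) :=
  fm_sum h8 (f := fun m t x => (gOf (θ t) x)⁻¹ k m * GamL (gOf (θ t)) i j m x)
    fun m => fm_mul h8 (fm_gi h8 hi hA k m) (fm_GamL h8 ht i j m)

theorem fm_Rup (h8 : Goal_C8) (hi : ∀ t ∈ I, ∀ x, A t x * θ t x = 1)
    (hA : ∀ a i, SmFam I (fun t x => A t x a i))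
    (ht : ∀ i a, SmFam I (fun t x => θ t x i a)) (i j k l : Fin 3) :
    SmFam I (fun t x => Rup (gOf (θ t)) i j k l x) := by
  have hG := fm_Gam h8 hi hA ht
  refine fm_sub h8 (fm_add h8 (fm_sub h8 (fm_E h8 (hG j k l) i) (fm_E h8 (hG i k l) j))
    (fm_sum h8 (f := fun m t x => Pool.Agent.Helper47.RF.Gam (gOf (θ t)) j k m x *
      Pool.Agent.Helper47.RF.Gam (gOf (θ t)) i m l x -
      Pool.Agent.Helper47.RF.Gam (gOf (θ t)) i k m x *
      Pool.Agent.Helper47.RF.Gam (gOf (θ t)) j m l x)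
      fun m => fm_sub h8 (fm_mul h8 (hG j k m) (hG i m l)) (fm_mul h8 (hG i k m) (hG j m l))))
    (fm_cmul h8 _ (fm_sum h8 (f := fun m t x => Pool.Agent.Helper47.RF.eps i j m *
      Pool.Agent.Helper47.RF.Gam (gOf (θ t)) m k l x) fun m => fm_cmul h8 _ (hG m k l)))

theorem fm_Rm (h8 : Goal_C8) (hi : ∀ t ∈ I, ∀ x, A t x * θ t x = 1)
    (hA : ∀ a i, SmFam I (fun t x => A t x a i))
    (ht : ∀ i a, SmFam I (fun t x => θ t x i a)) (i j k l : Fin 3) :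
    SmFam I (fun t x => Rm (gOf (θ t)) i j k l x) :=
  fm_sum h8 (f := fun m t x => Rup (gOf (θ t)) i j k m x * gOf (θ t) x m l)
    fun m => fm_mul h8 (fm_Rup h8 hi hA ht i j k m) (fm_g h8 ht m l)

theorem fm_Nc (h8 : Goal_C8) (hi : ∀ t ∈ I, ∀ x, A t x * θ t x = 1)
    (hA : ∀ a i, SmFam I (fun t x => A t x a i))
    (ht : ∀ i a, SmFam I (fun t x => θ t x i a)) (l k : Fin 3) :
    SmFam I (fun t x => Nc (A t) (θ t) x l k) := by
  unfold Nc
  refine fm_cmul h8 _ (fm_sum h8 fun c => fm_sum h8 fun d => fm_sum h8 fun b =>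
    fm_sum h8 fun f => ?_)
  refine fm_cmul h8 _ (fm_sum h8 fun i => fm_sum h8 fun j => fm_sum h8 fun p =>
    fm_sum h8 fun r => ?_)
  exact fm_mul h8 (fm_mul h8 (fm_mul h8 (fm_mul h8 (fm_Rm h8 hi hA ht i j p r) (hA c i))
    (hA d j)) (hA b p)) (hA f r)

theorem fm_sC (h8 : Goal_C8) (hi : ∀ t ∈ I, ∀ x, A t x * θ t x = 1)
    (hA : ∀ a i, SmFam I (fun t x => A t x a i))
    (ht : ∀ i a, SmFam I (fun t x => θ t x i a)) :
    SmFam I (fun t x => sC (A t) (θ t) x) :=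
  fm_sum h8 (f := fun i t x => Nc (A t) (θ t) x i i) fun i => fm_Nc h8 hi hA ht i i

theorem fm_gg (h8 : Goal_C8) (hi : ∀ t ∈ I, ∀ x, A t x * θ t x = 1)
    (hA : ∀ a i, SmFam I (fun t x => A t x a i)) {u : ℝ → HH → ℝ} (hu : SmFam I u) :
    SmFam I (fun t x => ggC (gOf (θ t)) (u t) (u t) x) := by
  unfold ggC
  refine fm_sum h8 fun i => fm_sum h8 fun j => ?_
  exact fm_mul h8 (fm_mul h8 (fm_gi h8 hi hA i j) (fm_E h8 hu i)) (fm_E h8 hu j)

end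

end

/-! ### bounds near time `0` -/

section
variable {T : ℝ}

theorem fam_bd (hT : 0 < T) {u : ℝ → HH → ℝ} (hs : SmFam (Set.Ico 0 T) u)
    (w : List (Fin 3)) : ∃ C : ℝ, ∀ t, 0 < t → t < T / 2 → ∀ x : HH, x ≠ 0 →
      |Ew w (u t) x| ≤ C := by
  have hK : IsCompact (Set.Icc (0 : ℝ) (T / 2) ×ˢ Metric.sphere (0 : HH) 1) :=
    isCompact_Icc.prod (isCompact_sphere _ _)
  have hc : ContinuousOn (fun p : ℝ × HH => Ew w (u p.1) p.2)
      (Set.Icc (0 : ℝ) (T / 2) ×ˢ Metric.sphere (0 : HH) 1) :=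
    (hs.cont w).mono fun p hp =>
      ⟨⟨hp.1.1, lt_of_le_of_lt hp.1.2 (by linarith)⟩, sph_ne ⟨p.2, hp.2⟩⟩
  obtain ⟨C, hC⟩ := hK.exists_bound_of_continuousOn hc
  refine ⟨C, fun t h0 h1 x hx => ?_⟩
  have hn : 0 < ‖x‖ := norm_pos_iff.mpr hx
  have h2 := (Jsm.Sm_Ew (hs.sm t ⟨h0.le, by linarith⟩) w).hom ‖x‖⁻¹ x (inv_pos.mpr hn)
  rw [← h2]
  refine hC (t, ‖x‖⁻¹ • x) ⟨⟨h0.le, h1.le⟩, ?_⟩
  rw [mem_sphere_zero_iff_norm, norm_smul, norm_inv, norm_norm, inv_mul_cancel₀ hn.ne']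

/-- words in the algebra -/
noncomputable def EB : List (Fin 3) → (baC T).B → (baC T).B
  | [], f => f
  | i :: w, f => (baC T).E i (EB w f)

theorem KS_EB (h6 : D6Stmt) (h3 : D3Stmt) (h8 : Goal_C8) (w : List (Fin 3)) {f : (baC T).B}
    (hf : f ∈ KS T) : EB w f ∈ KS T := by
  induction w with
  | nil => exact hf
  | cons i w ih => exact KS_E h6 h3 h8 i ih

theorem Ew_at1 (h6 : D6Stmt) (f : (baC T).B) (w : List (Fin 3)) {t : ℝ} (h0 : 0 < t)
    (h1 : t < T) : ∀ x : HH, x ≠ 0 → Ew w (at1 f t) x = at1 (EB w f) t x := by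
  induction w with
  | nil => exact fun x _ => rfl
  | cons i w ih =>
    intro x hx
    have h2 : Ew w (at1 f t) =ᶠ[nhds x] at1 (EB w f) t := by
      filter_upwards [isOpen_compl_singleton.mem_nhds (show x ∈ ({0}ᶜ : Set HH) from hx)]
        with y hy
      exact ih y hy
    have h3 := ((h6 T).2.1 (EB w f)).2.2.1 i t x h0 h1 hx
    show E i (Ew w (at1 f t)) x = at1 ((baC T).E i (EB w f)) t x
    rw [h3]
    unfold E
    rw [h2.fderiv_eq]

theorem at1_bd (h6 : D6Stmt) (hT : 0 < T) {f : (baC T).B} (hf : f ∈ KS T) :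
    ∃ C t0 : ℝ, 0 < t0 ∧ t0 < T ∧ ∀ t, 0 < t → t < t0 → ∀ x : HH, x ≠ 0 →
      |at1 f t x| ≤ C := by
  obtain ⟨h, hh⟩ := KS_ES hf
  obtain ⟨C, t0, h0, h1, hC⟩ := exH_bd0 hT hh
  refine ⟨C, t0, h0, h1, fun t ht ht' x hx => ?_⟩
  have hn : 0 < ‖x‖ := norm_pos_iff.mpr hx
  have h2 := ((h6 T).2.1 f).1.hom t ht (ht'.trans h1) ‖x‖⁻¹ x (inv_pos.mpr hn)
  rw [← h2]
  have hs : ‖x‖⁻¹ • x ∈ Metric.sphere (0 : HH) 1 := by
    rw [mem_sphere_zero_iff_norm, norm_smul, norm_inv, norm_norm, inv_mul_cancel₀ hn.ne']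
  have h3 := ((h6 T).2.1 f).2.1 ⟨‖x‖⁻¹ • x, hs⟩ ⟨t, ht, ht'.trans h1⟩
  rw [h3]
  exact hC _ ⟨t, ht, ht'.trans h1⟩ ht'

/-! ### horizontal words -/

variable {A' θ' : Fin 3 → Fin 3 → (baC T).B}

theorem KS_H (h6 : D6Stmt) (h3 : D3Stmt) (h8 : Goal_C8) (hA : ∀ a i, A' a i ∈ KS T)
    (hθ : ∀ i a, θ' i a ∈ KS T) (a : Fin 3) {f : (baC T).B} (hf : f ∈ KS T) :
    Insa.Hh (baC T) A' θ' a f ∈ KS T := by
  rw [Insa.H_apply]
  refine Subalgebra.sum_mem _ fun b _ => Subalgebra.mul_mem _ (R_mem a b) ?_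
  exact Subalgebra.add_mem _
    (Subalgebra.sum_mem _ fun i _ => Subalgebra.mul_mem _ (hA b i) (KS_E h6 h3 h8 i hf))
    (Subalgebra.sum_mem _ fun k _ => Subalgebra.mul_mem _
      (S_om (fun i f hf => KS_E h6 h3 h8 i hf) hA hθ b k) (KS_U h6 h3 k hf))

theorem KS_M (h6 : D6Stmt) (h3 : D3Stmt) (h8 : Goal_C8) (hA : ∀ a i, A' a i ∈ KS T)
    (hθ : ∀ i a, θ' i a ∈ KS T) (i j : Fin 3) : Insa.Mm (baC T) A' θ' i j ∈ KS T := by
  unfold Insa.Mm
  exact Subalgebra.sum_mem _ fun l _ => Subalgebra.sum_mem _ fun k _ =>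
    Subalgebra.mul_mem _ (Subalgebra.mul_mem _ (R_mem i l) (R_mem j k))
      (S_N (fun i f hf => KS_E h6 h3 h8 i hf) hA hθ l k)

/-- horizontal words in the algebra -/
noncomputable def HB (A' θ' : Fin 3 → Fin 3 → (baC T).B) : List (Fin 3) → (baC T).B → (baC T).B
  | [], f => f
  | a :: w, f => Insa.Hh (baC T) A' θ' a (HB A' θ' w f)

theorem KS_HB (h6 : D6Stmt) (h3 : D3Stmt) (h8 : Goal_C8) (hA : ∀ a i, A' a i ∈ KS T)
    (hθ : ∀ i a, θ' i a ∈ KS T) (w : List (Fin 3)) {f : (baC T).B} (hf : f ∈ KS T) :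
    HB A' θ' w f ∈ KS T := by
  induction w with
  | nil => exact hf
  | cons i w ih => exact KS_H h6 h3 h8 hA hθ i ih

end

section
variable {T : ℝ} {A θ : ℝ → MF}

theorem Hw_eq (hA : JM T A) (ht : JM T θ) (w : List (Fin 3)) (f : (baC T).B) :
    (flB hA ht).Hw w f = HB (embM hA) (embM ht) w f := by
  induction w with
  | nil => rfl
  | cons a w ih =>
    show (flB hA ht).H a ((flB hA ht).Hw w f) = _
    rw [ih]
    rfl

theorem bd0_of (hT : 0 < T) (hA : JM T A) (ht : JM T θ) {f : (baC T).B} (hf : f ∈ KS T) :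
    (flB hA ht).Bd0 f := by
  obtain ⟨h, hh⟩ := KS_ES hf
  exact exH_bd0 hT hh

theorem gg_mem (h6 : D6Stmt) (h3 : D3Stmt) (h8 : Goal_C8) (hA : JM T A) (ht : JM T θ)
    (hA1 : ∀ a i, embM hA a i ∈ KS T) (ht1 : ∀ i a, embM ht i a ∈ KS T) {f : (baC T).B}
    (hf : f ∈ KS T) :
    (∑ a, Insa.Hh (baC T) (embM hA) (embM ht) a f * Insa.Hh (baC T) (embM hA) (embM ht) a f)
      ∈ KS T :=
  Subalgebra.sum_mem _ fun a _ => Subalgebra.mul_mem _ (KS_H h6 h3 h8 hA1 ht1 a hf)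
    (KS_H h6 h3 h8 hA1 ht1 a hf)

end

section
variable {T : ℝ}

theorem fam_ct {u : ℝ → HH → ℝ} (hu : SmFam (Set.Ico 0 T) u) :
    ContinuousOn (fun p : ZZ × ℝ => u p.2 (p.1.1 : Metric.sphere (0 : HH) 1))
      (Set.univ ×ˢ Set.Ico 0 T) := by
  have h1 : Continuous (fun z : ZZ × ℝ => (z.2, ((z.1.1 : Metric.sphere (0 : HH) 1) : HH))) :=
    continuous_snd.prodMk (continuous_subtype_val.comp (continuous_fst.comp continuous_fst))
  exact (hu.cont []).comp h1.continuousOn (fun z hz => ⟨hz.2, sph_ne z.1.1⟩)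

theorem exH_x {f : (baC T).B} {u : ℝ → HH → ℝ} (hu : SmFam (Set.Ico 0 T) u)
    (he : ∀ (z : ZZ) (t : TI T),
      (baC T).ev z t f = u t (Prod.fst z : Metric.sphere (0 : HH) 1)) :
    ExH f (fun p => u p.2 (p.1.1 : Metric.sphere (0 : HH) 1)) := ⟨fam_ct hu, he⟩

theorem exH_ss {f g : (baC T).B} {h k : ZZ × ℝ → ℝ} (κ : ℝ) (hf : ExH f h) (hg : ExH g k) :
    ExH (f - κ • g) (fun p => h p - κ * k p) :=
  ⟨hf.1.sub (continuousOn_const.mul hg.1), fun z t => by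
    rw [map_sub, map_smul, hf.2, hg.2, smul_eq_mul]⟩

theorem exH_neg {f : (baC T).B} {h : ZZ × ℝ → ℝ} (hf : ExH f h) :
    ExH (-f) (fun p => -h p) :=
  ⟨hf.1.neg, fun z t => by rw [map_neg, hf.2]⟩

theorem rot_cont (a b : Fin 3) : Continuous (fun p : ZZ × ℝ =>
    rotf (p.1.2 : Metric.sphere (0 : HH) 1) a b) := by
  have h1 : Continuous (fun z : ZZ × ℝ => ((z.1.2 : Metric.sphere (0 : HH) 1) : HH)) :=
    continuous_subtype_val.comp (continuous_snd.comp continuous_fst)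
  exact (sm_rotf a b).cd.continuousOn.comp_continuous h1 (fun z => sph_ne z.1.2)

theorem row_unit (h3 : D3Stmt) (q : Metric.sphere (0 : HH) 1) :
    ∑ l, rotf (q : HH) 0 l ^ 2 = 1 := by
  have h1 := (h3 1).2.2.2.2.2.2.2.2.1 0 0
  have h2 := congrArg ((baC 1).ev (q, q) ⟨1 / 2, by norm_num, by norm_num⟩) h1
  rw [if_pos rfl, map_sum, map_one] at h2
  refine Eq.trans (Finset.sum_congr rfl fun l _ => ?_) h2
  rw [map_mul, sq]
  rfl

end

end Pool.Agent.Helper93.RF.Nr0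

namespace Pool.Agent.Helper93.RF

open Pool.Agent.Helper73.RF Nr0

/-- NR0. -/
theorem nr0 (hflb : FlbStmt) (h3 : D3Stmt) (h6 : D6Stmt) (h8 : Goal_C8) : Nr0Stmt := by
  intro T A θ hT hF hA ht
  have hI : Set.Ioo 0 T ⊆ Set.Ico 0 T := Set.Ioo_subset_Ico_self
  have fA : ∀ a i, SmFam (Set.Ico 0 T) (fun t x => A t x a i) := fun a i => (hF.flA a i).fam
  have ft : ∀ i a, SmFam (Set.Ico 0 T) (fun t x => θ t x i a) := fun i a => (hF.flt i a).fam
  have kA : ∀ a i, embM hA a i ∈ KS T := fun a i => emb_mem _ (fA a i)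
  have kt : ∀ i a, embM ht i a ∈ KS T := fun i a => emb_mem _ (ft i a)
  obtain ⟨-, -, hv, hu⟩ := hflb T (Set.Ico 0 T) A θ hT hI hF hA ht
  have kM : ∀ i j, Insa.Mm (baC T) (embM hA) (embM ht) i j ∈ KS T := KS_M h6 h3 h8 kA kt
  have ks : (∑ i, Insa.Mm (baC T) (embM hA) (embM ht) i i) ∈ KS T :=
    Subalgebra.sum_mem _ fun i _ => kM i i
  have hs : ExH (T := T) (flB hA ht).s
      (fun p => sC (A p.2) (θ p.2) (p.1.1 : Metric.sphere (0 : HH) 1)) :=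
    exH_x (fm_sC h8 hF.inv fA ft) fun z t => (hv z t _ rfl).1
  refine ⟨?_, ?_, ?_, ?_, ?_, ?_⟩
  · intro w i j
    rw [Hw_eq]
    exact bd0_of hT hA ht (KS_HB h6 h3 h8 kA kt w (kM i j))
  · exact bd0_of hT hA ht (gg_mem h6 h3 h8 hA ht kA kt ks)
  · intro s0 hs0
    exact exH_ini hT hs fun z => hs0 _ (sph_ne z.1)
  · intro κ hκ
    have hM : ExH (T := T) ((flB hA ht).M 0 0)
        (fun p => ∑ l, ∑ k, rotf (p.1.2 : Metric.sphere (0 : HH) 1) 0 l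
          * rotf (p.1.2 : Metric.sphere (0 : HH) 1) 0 k
          * Nc (A p.2) (θ p.2) (p.1.1 : Metric.sphere (0 : HH) 1) l k) := by
      refine ⟨?_, fun z t => (hv z t _ rfl).2.2.2⟩
      refine continuousOn_finsetSum _ fun l _ => continuousOn_finsetSum _ fun k _ => ?_
      refine ((rot_cont 0 l).continuousOn.mul (rot_cont 0 k).continuousOn).mul ?_
      exact fam_ct (u := fun t x => Nc (A t) (θ t) x l k) (fm_Nc h8 hF.inv fA ft l k)
    have hD : ExH (T := T) ((flB hA ht).M 0 0 - κ • (flB hA ht).s)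
        (fun p => ∑ l, ∑ k, rotf (p.1.2 : Metric.sphere (0 : HH) 1) 0 l
          * rotf (p.1.2 : Metric.sphere (0 : HH) 1) 0 k
          * Nc (A p.2) (θ p.2) (p.1.1 : Metric.sphere (0 : HH) 1) l k
          - κ * sC (A p.2) (θ p.2) (p.1.1 : Metric.sphere (0 : HH) 1)) := exH_ss κ hM hs
    refine exH_ini hT hD fun z => ?_
    have h1 := hκ _ (sph_ne z.1) (fun l => rotf (z.2 : Metric.sphere (0 : HH) 1) 0 l)
      (row_unit h3 z.2)
    exact sub_nonneg.mpr h1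
  · intro u hu' hus hu1
    refine ⟨?_, ?_⟩
    · have hg : ExH (T := T) ((flB hA ht).gg (emb u hu') (emb u hu'))
          (fun p => ggC (gOf (θ p.2)) (u p.2) (u p.2) (p.1.1 : Metric.sphere (0 : HH) 1)) :=
        exH_x (fm_gg h8 hF.inv fA hus) fun z t => ((hu u hu').2 z t _ rfl).1
      exact exH_ini hT (exH_neg hg) fun z => neg_le_neg (hu1 _ (sph_ne z.1))
    · refine bd0_of hT hA ht ?_
      exact Subalgebra.sum_mem _ fun a _ =>
        KS_H h6 h3 h8 kA kt a (KS_H h6 h3 h8 kA kt a (emb_mem hu' hus))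
  · intro w b k
    obtain ⟨C1, h1⟩ := fam_bd hT (fA b k) w
    obtain ⟨C2, h2⟩ := fam_bd hT (ft b k) w
    have hom : FR.om (baC T).E (embM hA) (embM ht) b k ∈ KS T :=
      S_om (fun i f hf => KS_E h6 h3 h8 i hf) kA kt b k
    obtain ⟨C3, t3, h30, h3T, h3'⟩ := at1_bd h6 hT (KS_EB h6 h3 h8 w hom)
    refine ⟨max C1 (max C2 C3), min t3 (T / 2), lt_min h30 (by linarith),
      (min_le_left _ _).trans_lt h3T, fun t h0 h4 x hx => ⟨?_, ?_, ?_⟩⟩
    · exact (h1 t h0 (h4.trans_le (min_le_right _ _)) x hx).trans (le_max_left _ _)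
    · exact (h2 t h0 (h4.trans_le (min_le_right _ _)) x hx).trans
        ((le_max_left _ _).trans (le_max_right _ _))
    · have h5 := h4.trans_le (min_le_left _ _)
      rw [Ew_at1 h6 _ w h0 (h5.trans h3T) x hx]
      exact (h3' t h0 h5 x hx).trans ((le_max_right _ _).trans (le_max_right _ _))

end Pool.Agent.Helper93.RF
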